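import Pool.Agent.Y377.IR.Stm

/-!
Restriction to the cosets of a subgroup of finite index (project IR of helper377, job IR-MIN).
-/

set_option autoImplicit false

namespace Pool.Agent.Y737.IR

open Pool.Agent.Y377.IR

section
variable {H : Type} [Group H] {R : Subalgebra ℂ (H → ℂ)}

/-- the translation as an endomorphism of the ring -/
def T (hR : TStab R) (g : H) : R →+* R where
  toFun f := ⟨tr g f, hR g f f.2⟩
  map_one' := rfl
  map_mul' _ _ := rfl
  map_zero' := rfl
  map_add' _ _ := rfl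

theorem T_apply (hR : TStab R) (g : H) (f : R) (h : H) :
    ((T hR g f : R) : H → ℂ) h = (f : H → ℂ) (g * h) := rfl

theorem T_one (hR : TStab R) : T hR 1 = RingHom.id R := by
  ext f h
  rw [T_apply, one_mul]
  rfl

theorem T_mul (hR : TStab R) (a b : H) : (T hR b).comp (T hR a) = T hR (a * b) := by
  ext f h
  show ((T hR b (T hR a f) : R) : H → ℂ) h = _
  rw [T_apply, T_apply, T_apply, mul_assoc]

theorem cc (hR : TStab R) (I : Ideal R) (a b : H) :
    (I.comap (T hR b)).comap (T hR a) = I.comap (T hR (a * b)) := by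
  rw [Ideal.comap_comap, T_mul]

theorem c1 (hR : TStab R) (I : Ideal R) : I.comap (T hR 1) = I := by
  rw [T_one, Ideal.comap_id]

theorem mem_min (p : Ideal R) : p ∈ minimalPrimes R ↔
    p.IsPrime ∧ ∀ q : Ideal R, q.IsPrime → q ≤ p → p ≤ q := by
  rw [minimalPrimes_eq_minimals]
  constructor
  · intro h
    exact ⟨h.1, fun q hq hqp => h.2 hq hqp⟩
  · rintro ⟨h1, h2⟩
    exact ⟨h1, fun q hq hqp => h2 q hq hqp⟩

theorem comap_min (hR : TStab R) (g : H) {p : Ideal R} (hp : p ∈ minimalPrimes R) :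
    p.comap (T hR g) ∈ minimalPrimes R := by
  rw [mem_min] at hp ⊢
  obtain ⟨h1, h2⟩ := hp
  refine ⟨Ideal.IsPrime.comap (T hR g), fun q hq hqp => ?_⟩
  have h3 : q.comap (T hR g⁻¹) ≤ p := by
    have := Ideal.comap_mono (f := T hR g⁻¹) hqp
    rwa [cc, inv_mul_cancel, c1] at this
  have h4 := h2 (q.comap (T hR g⁻¹)) (Ideal.IsPrime.comap (T hR g⁻¹)) h3
  have h5 := Ideal.comap_mono (f := T hR g) h4
  rwa [cc, mul_inv_cancel, c1] at h5

/-- the action on the minimal primes -/
def act (hR : TStab R) : H →* Equiv.Perm (minimalPrimes R) where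
  toFun g :=
    { toFun := fun p => ⟨p.1.comap (T hR g), comap_min hR g p.2⟩
      invFun := fun p => ⟨p.1.comap (T hR g⁻¹), comap_min hR g⁻¹ p.2⟩
      left_inv := fun p => Subtype.ext (by
        show (p.1.comap (T hR g)).comap (T hR g⁻¹) = p.1
        rw [cc, inv_mul_cancel, c1])
      right_inv := fun p => Subtype.ext (by
        show (p.1.comap (T hR g⁻¹)).comap (T hR g) = p.1
        rw [cc, mul_inv_cancel, c1]) }
  map_one' := by
    ext p : 1
    exact Subtype.ext (c1 hR p.1)
  map_mul' a b := by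
    ext p : 1
    exact Subtype.ext (cc hR p.1 a b).symm

/-- the functions which vanish on a coset -/
def van (N : Subgroup H) (R : Subalgebra ℂ (H → ℂ)) (a : H) : Ideal R where
  carrier := {f | ∀ g ∈ N, (f : H → ℂ) (g * a) = 0}
  zero_mem' := fun _ _ => rfl
  add_mem' := by
    intro f f' h h' g hg
    show (f : H → ℂ) (g * a) + (f' : H → ℂ) (g * a) = 0
    rw [h g hg, h' g hg, add_zero]
  smul_mem' := by
    intro c f h g hg
    show (c : H → ℂ) (g * a) * (f : H → ℂ) (g * a) = 0
    rw [h g hg, mul_zero]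

theorem mem_van {N : Subgroup H} {a : H} {f : R} :
    f ∈ van N R a ↔ ∀ g ∈ N, (f : H → ℂ) (g * a) = 0 := Iff.rfl

/-- evaluation -/
def ev (R : Subalgebra ℂ (H → ℂ)) (a : H) : R →+* ℂ where
  toFun f := (f : H → ℂ) a
  map_one' := rfl
  map_mul' _ _ := rfl
  map_zero' := rfl
  map_add' _ _ := rfl

end

theorem t_MIN : G_MIN := by
  classical
  intro H _ R hR _ hNoe
  have hfin : Finite (minimalPrimes R) :=
    (minimalPrimes.finite_of_isNoetherianRing R).to_subtype
  have hN : (act hR).ker.FiniteIndex := inferInstance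
  refine ⟨(act hR).ker, inferInstance, hN, ?_⟩
  set N : Subgroup H := (act hR).ker with hNdef
  have hNfix : ∀ g ∈ N, ∀ p ∈ minimalPrimes R, p.comap (T hR g) = p := by
    intro g hg p hp
    have h1 : act hR g = 1 := MonoidHom.mem_ker.1 hg
    have h2 := congrArg (fun e : Equiv.Perm (minimalPrimes R) => ((e ⟨p, hp⟩ : minimalPrimes R) : Ideal R)) h1
    exact h2
  intro a f hf f' hf' hff
  -- the vanishing ideal is prime
  have hker : (RingHom.ker (ev R a)).IsPrime := RingHom.ker_isPrime (ev R a)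
  obtain ⟨p, hp, hpev⟩ := Ideal.exists_minimalPrimes_le (I := (⊥ : Ideal R))
    (J := RingHom.ker (ev R a)) bot_le
  have hp' : p ∈ minimalPrimes R := hp
  have hpp := (mem_min p).1 hp'
  have h1 : p ≤ van N R a := by
    intro x hx g hg
    have h2 : T hR g x ∈ p := by
      have := hNfix g hg p hp'
      rw [← this] at hx
      exact hx
    have h3 : T hR g x ∈ RingHom.ker (ev R a) := hpev h2
    exact h3
  have h2 : ∃ u : H, (van N R a).comap (T hR u) ≤ p := by
    have hfin' : Finite (H ⧸ N) := inferInstance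
    have hfint : Fintype (H ⧸ N) := Fintype.ofFinite _
    have hinf : (Finset.univ : Finset (H ⧸ N)).inf
        (fun c => (van N R a).comap (T hR c.out)) ≤ p := by
      intro x hx
      have hx0 : x = 0 := by
        apply Subtype.ext
        funext h
        have h3 : x ∈ (van N R a).comap (T hR ((h * a⁻¹ : H) : H ⧸ N).out) :=
          (Finset.inf_le (f := fun c : H ⧸ N => (van N R a).comap (T hR c.out))
            (Finset.mem_univ ((h * a⁻¹ : H) : H ⧸ N))) hx
        have h4 : (((h * a⁻¹ : H) : H ⧸ N).out)⁻¹ * (h * a⁻¹) ∈ N := by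
          rw [← QuotientGroup.eq]
          exact QuotientGroup.out_eq' _
        have h5 := h3 _ h4
        rw [T_apply] at h5
        have e : ((h * a⁻¹ : H) : H ⧸ N).out * (((h * a⁻¹ : H) : H ⧸ N).out⁻¹ * (h * a⁻¹) * a) = h := by
          group
        rw [e] at h5
        exact h5
      rw [hx0]
      exact p.zero_mem
    obtain ⟨c, _, hc⟩ := (Ideal.IsPrime.inf_le' hpp.1).1 hinf
    exact ⟨_, hc⟩
  obtain ⟨u, hu⟩ := h2
  have h3 : van N R a ≤ p.comap (T hR u⁻¹) := by
    have := Ideal.comap_mono (f := T hR u⁻¹) hu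
    rwa [cc, inv_mul_cancel, c1] at this
  have h4 := (mem_min _).1 (comap_min hR u⁻¹ hp')
  have h5 : p.comap (T hR u⁻¹) ≤ p := h4.2 p hpp.1 (h1.trans h3)
  have h6 : van N R a = p := le_antisymm (h3.trans h5) h1
  have h7 : (van N R a).IsPrime := by
    rw [h6]
    exact hpp.1
  have h8 : (⟨f, hf⟩ : R) * ⟨f', hf'⟩ ∈ van N R a := fun g hg => hff g hg
  rcases h7.mem_or_mem h8 with h9 | h9
  · exact Or.inl h9
  · exact Or.inr h9

end Pool.Agent.Y737.IR

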